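import Pool.Agent.R267.CQ7

set_option autoImplicit false

/-!
# MP_d7aa4b_an: Cesaro and de la Vallee-Poussin summability of the greedy algorithm

Every Cesaro quasi-greedy basis and every de la Vallee-Poussin quasi-greedy basis of a Banach space
is quasi-greedy.
-/

open Filter Topology

namespace Pool.Agent.Results.MP_d7aa4b_an.CesaroQuasiGreedy

universe u v

variable {𝕜 : Type u} [RCLike 𝕜] {X : Type v} [NormedAddCommGroup X] [NormedSpace 𝕜 X]

/-- `x` is a basis of `X` with coordinate functionals `xs`: its linear span is dense, the functionals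
are biorthogonal to it, and both sequences are bounded in norm. -/
structure IsBasis (x : ℕ → X) (xs : ℕ → StrongDual 𝕜 X) : Prop where
  dense : (Submodule.span 𝕜 (Set.range x)).topologicalClosure = ⊤
  biorthogonal : ∀ m n, xs m (x n) = if m = n then 1 else 0
  bounded : ∃ C : ℝ, ∀ n, ‖x n‖ ≤ C
  bounded_dual : ∃ C : ℝ, ∀ n, ‖xs n‖ ≤ C

/-- `k` is a greedy ordering for `f`: an injective sequence of indices whose range contains the
support of `f`, and along which the moduli of the coordinates of `f` do not increase. -/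
structure IsGreedyOrdering (xs : ℕ → StrongDual 𝕜 X) (f : X) (k : ℕ → ℕ) : Prop where
  injective : Function.Injective k
  support : ∀ n, xs n f ≠ 0 → n ∈ Set.range k
  anti : ∀ i j, i < j → ‖xs (k j) f‖ ≤ ‖xs (k i) f‖

/-- the greedy sum `G_m`: the sum of the first `m` terms of the expansion along `k` -/
noncomputable def greedySum (x : ℕ → X) (xs : ℕ → StrongDual 𝕜 X) (k : ℕ → ℕ) (m : ℕ) (f : X) : X :=
  ∑ j ∈ Finset.range m, xs (k j) f • x (k j)

/-- the Cesaro mean `C_m = (1 / m) (G_1 + ... + G_m)` -/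
noncomputable def cesaro (x : ℕ → X) (xs : ℕ → StrongDual 𝕜 X) (k : ℕ → ℕ) (m : ℕ) (f : X) : X :=
  ((m : 𝕜)⁻¹) • ∑ n ∈ Finset.Icc 1 m, greedySum x xs k n f

/-- quasi-greedy: the greedy sums are uniformly bounded -/
def QuasiGreedy (x : ℕ → X) (xs : ℕ → StrongDual 𝕜 X) : Prop :=
  ∃ C : ℝ, ∀ (f : X) (k : ℕ → ℕ), IsGreedyOrdering xs f k →
    ∀ m : ℕ, ‖greedySum x xs k m f‖ ≤ C * ‖f‖

/-- Cesaro quasi-greedy: the Cesaro means of every vector along every greedy ordering converge -/
def CesaroQG (x : ℕ → X) (xs : ℕ → StrongDual 𝕜 X) : Prop :=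
  ∀ (f : X) (k : ℕ → ℕ), IsGreedyOrdering xs f k →
    Tendsto (fun m => cesaro x xs k m f) atTop (𝓝 f)

/-- de la Vallee-Poussin quasi-greedy: the means `2 C_{2m} - C_m` of every vector along every greedy
ordering converge -/
def ValleePoussinQG (x : ℕ → X) (xs : ℕ → StrongDual 𝕜 X) : Prop :=
  ∀ (f : X) (k : ℕ → ℕ), IsGreedyOrdering xs f k →
    Tendsto (fun m => (2 : 𝕜) • cesaro x xs k (2 * m) f - cesaro x xs k m f) atTop (𝓝 f)

section proof

open Pool.Agent.R267.CQ

lemma sum_Icc (x : ℕ → X) (xs : ℕ → StrongDual 𝕜 X) (k : ℕ → ℕ) (m : ℕ) (f : X) :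
    ∑ n ∈ Finset.Icc 1 m, greedySum x xs k n f =
      ∑ j ∈ Finset.range m, ∑ i ∈ Finset.range (j + 1), xs (k i) f • x (k i) := by
  induction m with
  | zero => simp
  | succ m ih =>
    rw [Finset.sum_Icc_succ_top (by omega), ih, Finset.sum_range_succ]
    rfl

lemma exists_bound {Z : Type v} [NormedAddCommGroup Z] (a : ℕ → Z) (l : Z)
    (h : Tendsto a atTop (𝓝 l)) : ∃ B : ℝ, 0 ≤ B ∧ ∀ m, ‖a m‖ ≤ B := by
  obtain ⟨B, hB⟩ := (Metric.isBounded_range_of_tendsto a h).exists_norm_le
  refine ⟨max B 0, le_max_right _ _, fun m => (hB _ ⟨m, rfl⟩).trans (le_max_left _ _)⟩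

lemma main [CompleteSpace X] (x : ℕ → X) (xs : ℕ → StrongDual 𝕜 X) (hb : IsBasis x xs)
    (hH : ∀ (f : X) (k : ℕ → ℕ), IsGreedyOrdering xs f k → ∃ B : ℝ, ∀ m : ℕ,
      ‖∑ n ∈ Finset.Icc 1 m, greedySum x xs k n f‖ ≤ B * m) : QuasiGreedy x xs := by
  obtain ⟨A1, hA1⟩ := hb.bounded
  obtain ⟨A2, hA2⟩ := hb.bounded_dual
  set D : Bas 𝕜 X :=
    { x := x
      xs := xs
      dense := hb.dense
      biorth := hb.biorthogonal
      A1 := max A1 1
      A2 := max A2 1
      hA1 := fun n => (hA1 n).trans (le_max_left _ _)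
      hA2 := fun n => (hA2 n).trans (le_max_left _ _)
      one_le_A1 := le_max_right _ _
      one_le_A2 := le_max_right _ _ } with hD
  obtain ⟨c, hc1, hc⟩ := uniform D (fun f k hk => by
    obtain ⟨B, hB⟩ := hH f k ⟨hk.inj, hk.supp, fun i j hij => hk.anti i j hij.le⟩
    refine ⟨B, fun m => ?_⟩
    have := hB m
    rw [sum_Icc] at this
    exact this)
  obtain ⟨C, hC⟩ := quasi_greedy (D := D) (c := c) hc hc1
  refine ⟨C, fun f k hk m => ?_⟩
  have hk' : GO D f k := by
    refine ⟨hk.injective, hk.support, fun i j hij => ?_⟩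
    rcases hij.eq_or_lt with h | h
    · rw [h]
    · exact hk.anti i j h
  exact hC f k hk' m

end proof

/-- Every Cesaro quasi-greedy basis of a Banach space is quasi-greedy (Q1), and every
de la Vallee-Poussin quasi-greedy basis of a Banach space is quasi-greedy (Q2). -/
theorem result {𝕜 : Type u} [RCLike 𝕜] {X : Type v} [NormedAddCommGroup X] [NormedSpace 𝕜 X]
    [CompleteSpace X] (x : ℕ → X) (xs : ℕ → StrongDual 𝕜 X) (hb : IsBasis x xs) :
    (CesaroQG x xs → QuasiGreedy x xs) ∧ (ValleePoussinQG x xs → QuasiGreedy x xs) := by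
  constructor
  · intro h
    apply main x xs hb
    intro f k hk
    obtain ⟨B, hB0, hB⟩ := exists_bound _ f (h f k hk)
    refine ⟨B, fun m => ?_⟩
    rcases Nat.eq_zero_or_pos m with rfl | hm
    · simp
    · have h1 := hB m
      unfold cesaro at h1
      have hm' : (0 : ℝ) < m := by exact_mod_cast hm
      rw [norm_smul, norm_inv, RCLike.norm_natCast, inv_mul_le_iff₀ hm'] at h1
      linarith
  · intro h
    apply main x xs hb
    intro f k hk
    obtain ⟨B, hB0, hB⟩ := exists_bound _ f (h f k hk)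
    obtain ⟨A1, hA1⟩ := hb.bounded
    obtain ⟨A2, hA2⟩ := hb.bounded_dual
    have hA10 : 0 ≤ A1 := (norm_nonneg _).trans (hA1 0)
    have hA20 : 0 ≤ A2 := (norm_nonneg _).trans (hA2 0)
    set a := A1 * A2 * ‖f‖ with ha
    have ha0 : 0 ≤ a := by positivity
    set S : ℕ → X := fun m => ∑ n ∈ Finset.Icc 1 m, greedySum x xs k n f with hS
    have hG : ∀ m, ‖greedySum x xs k m f‖ ≤ m * a := by
      intro m
      unfold greedySum
      refine (norm_sum_le _ _).trans ?_
      calc ∑ j ∈ Finset.range m, ‖xs (k j) f • x (k j)‖ ≤ ∑ j ∈ Finset.range m, a := by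
            refine Finset.sum_le_sum fun j _ => ?_
            rw [norm_smul]
            calc ‖xs (k j) f‖ * ‖x (k j)‖ ≤ (A2 * ‖f‖) * A1 :=
                  mul_le_mul (((xs (k j)).le_opNorm f).trans
                    (mul_le_mul_of_nonneg_right (hA2 _) (norm_nonneg _))) (hA1 _) (norm_nonneg _)
                    (by positivity)
              _ = a := by rw [ha]; ring
        _ = m * a := by rw [Finset.sum_const, nsmul_eq_mul, Finset.card_range]
    have hstep : ∀ m, ‖S (2 * m)‖ ≤ ‖S m‖ + m * B := by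
      intro m
      rcases Nat.eq_zero_or_pos m with rfl | hm
      · simp [hS]
      · have hm' : (0 : ℝ) < m := by exact_mod_cast hm
        have hmk : (m : 𝕜) ≠ 0 := by exact_mod_cast hm.ne'
        have h1 := hB m
        unfold cesaro at h1
        have h2 : (2 : 𝕜) • ((((2 * m : ℕ) : 𝕜))⁻¹ • ∑ n ∈ Finset.Icc 1 (2 * m),
            greedySum x xs k n f) - ((m : 𝕜)⁻¹) • ∑ n ∈ Finset.Icc 1 m, greedySum x xs k n f =
            ((m : 𝕜)⁻¹) • (S (2 * m) - S m) := by
          rw [smul_sub, ← mul_smul]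
          congr 2
          push_cast
          field_simp
        rw [h2, norm_smul, norm_inv, RCLike.norm_natCast, inv_mul_le_iff₀ hm'] at h1
        have h3 := norm_sub_norm_le (S (2 * m)) (S m)
        linarith
    refine ⟨B + 2 * a, fun m => ?_⟩
    change ‖S m‖ ≤ (B + 2 * a) * m
    induction m using Nat.strong_induction_on with
    | _ m ih =>
      rcases Nat.eq_zero_or_pos m with rfl | hm
      · simp [hS]
      · rcases Nat.even_or_odd' m with ⟨j, rfl | rfl⟩
        · have h1 := ih j (by omega)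
          have h2 := hstep j
          push_cast
          have hj : (0 : ℝ) ≤ j := Nat.cast_nonneg j
          nlinarith [mul_nonneg ha0 hj]
        · have h1 := ih j (by omega)
          have h2 := hstep j
          have h3 : S (2 * j + 1) = S (2 * j) + greedySum x xs k (2 * j + 1) f := by
            rw [hS]
            simp only
            rw [Finset.sum_Icc_succ_top (by omega)]
          rw [h3]
          refine (norm_add_le _ _).trans ?_
          have h4 := hG (2 * j + 1)
          push_cast at h4 ⊢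
          have hj : (0 : ℝ) ≤ j := Nat.cast_nonneg j
          nlinarith [mul_nonneg ha0 hj, mul_nonneg hB0 hj]

end Pool.Agent.Results.MP_d7aa4b_an.CesaroQuasiGreedy
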